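import Pool.Agent.KS6_65.SC3.Geo

/-!
# Rotation systems of graphs of maximum degree at most three: the decision procedure
-/

set_option autoImplicit false

namespace Pool.Agent.KS6_65.SC3

open Pool.Agent.NPC Pool.Agent.T6.H37.RO Pool.Agent.Results.MP_8b4fe7_lc.CubicRotationInP

/-- The realizability problem for the graphs all of whose vertex degrees are in the list `D`: `I`
codes a rotation system of such a graph which is realized by some straight-line drawing. -/
def DegreeRealizability (D : List ℕ) (I : List (List ℕ)) : Prop :=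
  ∃ (n : ℕ) (G : SimpleGraph (Fin n)) (π : RotationSystem G),
    Encodes I π ∧ (∀ v, (G.neighborSet v).ncard ∈ D) ∧ Realizable π

/-- test at the vertex `v` -/
def okd (D : List ℕ) (I : List (List ℕ)) (v : ℕ) : Bool :=
  (decide ((nb I v).length ∈ D) &&
    ((decide ((nb I v).length < 2) || !decide ((nb I v).getD 0 0 = (nb I v).getD 1 0)) &&
    (decide ((nb I v).length < 3) || (!decide ((nb I v).getD 1 0 = (nb I v).getD 2 0) &&
      !decide ((nb I v).getD 0 0 = (nb I v).getD 2 0))))) &&
  (nb I v).all fun u => decide (u < I.length) && (!decide (u = v) && decide (v ∈ nb I u))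

/-- the decision procedure -/
def decd (D : List ℕ) (I : List (List ℕ)) : Bool :=
  (List.range I.length).all (fun v => okd D I v) &&
    (List.range I.length).all fun a => (List.range I.length).all fun b =>
      (List.range I.length).all fun c => (List.range I.length).all fun d => evq I a b c d

theorem poly_okd (D : List ℕ) {α : Type} [TEnc α] {I : α → List (List ℕ)} {v : α → ℕ}
    (hI : Poly I) (hv : Poly v) : Poly (fun a => okd D (I a) (v a)) := by
  have hn := poly_nb hI hv
  have h0 : Poly (fun a => (nb (I a) (v a)).getD 0 0) :=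
    Poly.getD hn (NPC.Poly.const 0) (NPC.Poly.const 0)
  have h1 : Poly (fun a => (nb (I a) (v a)).getD 1 0) :=
    Poly.getD hn (NPC.Poly.const 1) (NPC.Poly.const 0)
  have h2 : Poly (fun a => (nb (I a) (v a)).getD 2 0) :=
    Poly.getD hn (NPC.Poly.const 2) (NPC.Poly.const 0)
  unfold okd
  refine Poly.and (Poly.and (Poly.decide_mem (Poly.length hn) (NPC.Poly.const D))
    (Poly.and (Poly.or (Poly.decide_lt (Poly.length hn) (NPC.Poly.const 2))
      (Poly.not (Poly.decide_eq h0 h1)))
      (Poly.or (Poly.decide_lt (Poly.length hn) (NPC.Poly.const 3))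
        (Poly.and (Poly.not (Poly.decide_eq h1 h2)) (Poly.not (Poly.decide_eq h0 h2)))))) ?_
  refine Poly.all (p := fun a u => decide (u < (I a).length) && (!decide (u = v a) &&
    decide (v a ∈ nb (I a) u))) hn ?_
  have hI' : Poly (fun x : α × ℕ => I x.1) := hI.comp (Poly.fst NPC.Poly.id)
  have hv' : Poly (fun x : α × ℕ => v x.1) := hv.comp (Poly.fst NPC.Poly.id)
  exact Poly.and (Poly.decide_lt (Poly.snd NPC.Poly.id) (Poly.length hI'))
    (Poly.and (Poly.not (Poly.decide_eq (Poly.snd NPC.Poly.id) hv'))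
      (Poly.decide_mem hv' (poly_nb hI' (Poly.snd NPC.Poly.id))))

theorem poly_decd (D : List ℕ) : Poly (decd D) := by
  unfold decd
  refine Poly.and ?_ ?_
  · exact Poly.all (p := fun I v => okd D I v) (Poly.range_length NPC.Poly.id)
      (poly_okd D (Poly.fst NPC.Poly.id) (Poly.snd NPC.Poly.id))
  · refine Poly.all (p := fun (I : List (List ℕ)) a => (List.range I.length).all fun b =>
      (List.range I.length).all fun c => (List.range I.length).all fun d => evq I a b c d)
      (Poly.range_length NPC.Poly.id) ?_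
    refine Poly.all (p := fun (x : List (List ℕ) × ℕ) b =>
      (List.range x.1.length).all fun c => (List.range x.1.length).all fun d =>
        evq x.1 x.2 b c d) (Poly.range_length (Poly.fst NPC.Poly.id)) ?_
    refine Poly.all (p := fun (x : (List (List ℕ) × ℕ) × ℕ) c =>
      (List.range x.1.1.length).all fun d => evq x.1.1 x.1.2 x.2 c d)
      (Poly.range_length (Poly.fst (Poly.fst NPC.Poly.id))) ?_
    refine Poly.all (p := fun (x : ((List (List ℕ) × ℕ) × ℕ) × ℕ) d =>
      evq x.1.1.1 x.1.1.2 x.1.2 x.2 d)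
      (Poly.range_length (Poly.fst (Poly.fst (Poly.fst NPC.Poly.id)))) ?_
    exact poly_evq (Poly.fst (Poly.fst (Poly.fst (Poly.fst NPC.Poly.id))))
      (Poly.snd (Poly.fst (Poly.fst (Poly.fst NPC.Poly.id))))
      (Poly.snd (Poly.fst (Poly.fst NPC.Poly.id)))
      (Poly.snd (Poly.fst NPC.Poly.id)) (Poly.snd NPC.Poly.id)

/-! ### meaning -/

theorem okd_iff {D : List ℕ} (hD : ∀ d ∈ D, d ≤ 3) (I : List (List ℕ)) (v : ℕ) :
    okd D I v = true ↔ (nb I v).length ∈ D ∧ (nb I v).Nodup ∧
      ∀ u ∈ nb I v, u < I.length ∧ u ≠ v ∧ v ∈ nb I u := by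
  unfold okd
  simp only [Bool.and_eq_true, Bool.or_eq_true, decide_eq_true_eq, Bool.not_eq_true',
    decide_eq_false_iff_not, List.all_eq_true]
  have key : (nb I v).length ≤ 3 → ((((nb I v).length < 2 ∨
      ¬ (nb I v).getD 0 0 = (nb I v).getD 1 0) ∧ ((nb I v).length < 3 ∨
      (¬ (nb I v).getD 1 0 = (nb I v).getD 2 0 ∧ ¬ (nb I v).getD 0 0 = (nb I v).getD 2 0))) ↔
      (nb I v).Nodup) := by
    generalize nb I v = l
    intro hl
    match l, hl with
    | [], _ => simp
    | [a], _ => simp
    | [a, b], _ => simp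
    | [a, b, c], _ =>
      simp
      tauto
    | _ :: _ :: _ :: _ :: _, hl =>
      simp only [List.length_cons] at hl
      omega
  constructor
  · rintro ⟨⟨h1, h2⟩, h3⟩
    exact ⟨h1, (key (hD _ h1)).1 h2, h3⟩
  · rintro ⟨h1, h2, h3⟩
    exact ⟨⟨h1, (key (hD _ h1)).2 h2⟩, h3⟩

theorem decd_iff (D : List ℕ) (I : List (List ℕ)) : decd D I = true ↔
    (∀ v < I.length, okd D I v = true) ∧
    ∀ a < I.length, ∀ b < I.length, ∀ c < I.length, ∀ d < I.length, evq I a b c d = true := by
  unfold decd
  simp only [Bool.and_eq_true, List.all_eq_true, List.mem_range]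

section

variable {I : List (List ℕ)} {n : ℕ} {G : SimpleGraph (Fin n)} {π : RotationSystem G}

theorem enc_list (h : Encodes I π) (v : Fin n) :
    ∃ l : List (Fin n), (l : Cycle (Fin n)) = π.order v ∧ nb I v ~r l.map Fin.val := by
  obtain ⟨l, hl⟩ := cycle_list (π.order v)
  refine ⟨l, hl, ?_⟩
  have h1 := h.2 v
  rw [← hl, Cycle.map_coe, Cycle.coe_eq_coe] at h1
  exact h1

theorem enc_mem (h : Encodes I π) (v u : Fin n) : (u : ℕ) ∈ nb I v ↔ G.Adj v u := by
  obtain ⟨l, hl, hr⟩ := enc_list h v
  rw [← π.mem_iff, ← hl, hr.perm.mem_iff, List.mem_map_of_injective Fin.val_injective]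
  exact Cycle.mem_coe_iff.symm

theorem rot3 {A : Type} {l : List A} {x y z : A} :
    l ~r [x, y, z] ↔ l = [x, y, z] ∨ l = [y, z, x] ∨ l = [z, x, y] := by
  constructor
  · intro h
    obtain ⟨a, b, c, rfl⟩ := List.length_eq_three.1 (show l.length = 3 by
      simpa using h.perm.length_eq)
    have h1 := cycle3_iff.1 (Cycle.coe_eq_coe.2 h)
    rcases h1 with ⟨rfl, rfl, rfl⟩ | ⟨rfl, rfl, rfl⟩ | ⟨rfl, rfl, rfl⟩
    · exact Or.inl rfl
    · exact Or.inr (Or.inl rfl)
    · exact Or.inr (Or.inr rfl)
  · rintro (rfl | rfl | rfl)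
    · exact List.IsRotated.refl _
    · exact ⟨2, rfl⟩
    · exact ⟨1, rfl⟩

theorem enc_pos (h : Encodes I π) (v x y z : Fin n) :
    π.order v = (([x, y, z] : List (Fin n)) : Cycle (Fin n)) ↔ posq I v x y z = true := by
  obtain ⟨l, hl, hr⟩ := enc_list h v
  rw [posq_iff, ← rot3, ← hl, Cycle.coe_eq_coe]
  constructor
  · intro h1
    exact hr.trans (h1.map Fin.val)
  · intro h1
    have h2 : l.map Fin.val ~r [x, y, z].map Fin.val := hr.symm.trans h1
    exact map_rot Fin.val_injective h2

theorem enc_even (h : Encodes I π) :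
    EvenOnK4 π ↔ ∀ a b c d : Fin n, evq I a b c d = true := by
  constructor
  · intro hE a b c d
    rw [evq_iff]
    intro hab hac had hbc hbd hcd
    rw [enc_mem h] at hab hac had hbc hbd hcd
    have := hE ![a, b, c, d] (by
      intro i j hij
      fin_cases i <;> fin_cases j
      · exact absurd rfl hij
      · exact hab
      · exact hac
      · exact had
      · exact hab.symm
      · exact absurd rfl hij
      · exact hbc
      · exact hbd
      · exact hac.symm
      · exact hbc.symm
      · exact absurd rfl hij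
      · exact hcd
      · exact had.symm
      · exact hbd.symm
      · exact hcd.symm
      · exact absurd rfl hij)
    rw [even_ncard (s := ![posq I a b c d, posq I b a c d, posq I c a b d, posq I d a b c])
      (enc_pos h a b c d) (enc_pos h b a c d) (enc_pos h c a b d) (enc_pos h d a b c)] at this
    exact this
  · intro hd w hw
    have h1 := hd (w 0) (w 1) (w 2) (w 3)
    rw [evq_iff] at h1
    rw [even_ncard (s := ![posq I (w 0) (w 1) (w 2) (w 3), posq I (w 1) (w 0) (w 2) (w 3),
      posq I (w 2) (w 0) (w 1) (w 3), posq I (w 3) (w 0) (w 1) (w 2)])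
      (enc_pos h _ _ _ _) (enc_pos h _ _ _ _) (enc_pos h _ _ _ _) (enc_pos h _ _ _ _)]
    exact h1 ((enc_mem h _ _).2 (hw 0 1 (by decide))) ((enc_mem h _ _).2 (hw 0 2 (by decide)))
      ((enc_mem h _ _).2 (hw 0 3 (by decide))) ((enc_mem h _ _).2 (hw 1 2 (by decide)))
      ((enc_mem h _ _).2 (hw 1 3 (by decide))) ((enc_mem h _ _).2 (hw 2 3 (by decide)))

end

theorem degreeRealizability_iff {D : List ℕ} (hD : ∀ d ∈ D, d ≤ 3) (I : List (List ℕ)) :
    DegreeRealizability D I ↔ decd D I = true := by
  rw [decd_iff]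
  constructor
  · rintro ⟨n, G, π, henc, hG, hreal⟩
    have hn : I.length = n := henc.1
    subst hn
    rw [characterization π (fun v => hD _ (hG v)), enc_even henc] at hreal
    refine ⟨fun v hv => ?_, fun a ha b hb c hc d hd => hreal ⟨a, ha⟩ ⟨b, hb⟩ ⟨c, hc⟩ ⟨d, hd⟩⟩
    rw [okd_iff hD]
    obtain ⟨l, hl, hr⟩ := enc_list henc ⟨v, hv⟩
    have hr' : nb I v ~r l.map Fin.val := hr
    have hnd : l.Nodup := by
      have := π.nodup ⟨v, hv⟩
      rw [← hl] at this
      exact this
    refine ⟨?_, ?_, ?_⟩
    · have h1 := hG ⟨v, hv⟩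
      rw [ncard_eq π hl] at h1
      rw [hr'.perm.length_eq, List.length_map]
      exact h1
    · rw [hr'.nodup_iff]
      exact hnd.map Fin.val_injective
    · intro u hu
      have hu' := hr'.perm.mem_iff.1 hu
      rw [List.mem_map] at hu'
      obtain ⟨x, -, rfl⟩ := hu'
      have hadj : G.Adj ⟨v, hv⟩ x := (enc_mem henc ⟨v, hv⟩ x).1 hu
      refine ⟨x.2, ?_, (enc_mem henc x ⟨v, hv⟩).2 hadj.symm⟩
      intro h
      exact hadj.ne (Fin.ext h.symm)
  · rintro ⟨hok, hev⟩
    have hok' : ∀ v : Fin I.length, (nb I v).length ∈ D ∧ (nb I v).Nodup ∧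
        ∀ u ∈ nb I v, u < I.length ∧ u ≠ v ∧ (v : ℕ) ∈ nb I u :=
      fun v => (okd_iff hD I v).1 (hok v v.2)
    let l : Fin I.length → List (Fin I.length) := fun v =>
      (nb I v).attach.map fun u => ⟨u.1, ((hok' v).2.2 u.1 u.2).1⟩
    have hl : ∀ v, (l v).map Fin.val = nb I v := by
      intro v
      change ((nb I v).attach.map fun u => (⟨u.1, ((hok' v).2.2 u.1 u.2).1⟩ :
        Fin I.length)).map Fin.val = _
      rw [List.map_map]
      exact List.attach_map_subtype_val _
    have hlm : ∀ v u, u ∈ l v ↔ (u : ℕ) ∈ nb I v := by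
      intro v u
      rw [← hl v, List.mem_map_of_injective Fin.val_injective]
    let G : SimpleGraph (Fin I.length) :=
      { Adj := fun u v => (v : ℕ) ∈ nb I u
        symm := ⟨fun u v huv => ((hok' u).2.2 v huv).2.2⟩
        loopless := ⟨fun u hu => ((hok' u).2.2 u hu).2.1 rfl⟩ }
    let π : RotationSystem G :=
      { order := fun v => (l v : Cycle (Fin I.length))
        nodup := by
          intro v
          have h1 := (hok' v).2.1
          rw [← hl v] at h1
          exact h1.of_map _
        mem_iff := fun v u => hlm v u }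
    have hdeg : ∀ v, (G.neighborSet v).ncard ∈ D := by
      intro v
      rw [ncard_eq π (v := v) (l := l v) rfl]
      have h1 := (hok' v).1
      rw [← hl v, List.length_map] at h1
      exact h1
    have henc : Encodes I π := by
      refine ⟨rfl, fun v => ?_⟩
      change (nb I v : Cycle ℕ) = Cycle.map Fin.val (l v : Cycle (Fin I.length))
      rw [Cycle.map_coe, hl v]
    refine ⟨I.length, G, π, henc, hdeg, ?_⟩
    rw [characterization π (fun v => hD _ (hdeg v)), enc_even henc]
    intro a b c d
    exact hev a a.2 b b.2 c c.2 d d.2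

theorem inP {D : List ℕ} (hD : ∀ d ∈ D, d ≤ 3) : InPP (DegreeRealizability D) :=
  inPP_of (poly_decd D) (degreeRealizability_iff hD)

end Pool.Agent.KS6_65.SC3
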