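import Pool.Graph.R_pool_sql_team_seeded_47a924f7.Results.MP_8b4fe7_lc.CubicRotationInP

/-!
# Rotation systems of graphs of maximum degree at most three: the characterization

The doubling of a graph joins the two copies of every vertex of degree less than three.  It has no
new complete subgraphs on four vertices; three doublings turn a graph of maximum degree at most
three into a cubic graph.
-/

set_option autoImplicit false

namespace Pool.Agent.KS6_65.SC3

open Pool.Agent.NPC Pool.Agent.T6.H37.RO Pool.Agent.Results.MP_8b4fe7_lc.CubicRotationInP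

/-- Every vertex has at most three neighbours. -/
def Subcubic {V : Type} (G : SimpleGraph V) : Prop := ∀ v, (G.neighborSet v).ncard ≤ 3

theorem cycle_list {V : Type} (c : Cycle V) : ∃ l : List V, (l : Cycle V) = c :=
  ⟨_, Quotient.out_eq c⟩

theorem ncard_eq {V : Type} {G : SimpleGraph V} (π : RotationSystem G) {v : V} {l : List V}
    (hl : (l : Cycle V) = π.order v) : (G.neighborSet v).ncard = l.length := by
  classical
  have hnd : l.Nodup := by
    have := π.nodup v
    rw [← hl] at this
    exact this
  have hset : G.neighborSet v = (l.toFinset : Set V) := by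
    ext u
    rw [SimpleGraph.mem_neighborSet, ← π.mem_iff, ← hl]
    simp
  rw [hset, Set.ncard_coe_finset, List.toFinset_card_of_nodup hnd]

/-! ### Directions at a vertex of small degree -/

theorem leave_zero (o : ℝ × ℝ) (a : Fin 0 → ℝ × ℝ) : LeaveInOrder o a :=
  ⟨fun _ => 0, fun i => i.elim0, fun i => i.elim0, fun i => i.elim0⟩

theorem polar_point {X o : ℝ × ℝ} {θ : ℝ} (h : PolarAt (X - o) θ) :
    ∃ ρ : ℝ, 0 < ρ ∧ X = o + (ρ * Real.cos θ, ρ * Real.sin θ) := by
  obtain ⟨ρ, hρ, h⟩ := h
  exact ⟨ρ, hρ, by rw [← h]; abel⟩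

theorem leave_one {o : ℝ × ℝ} {a : Fin 1 → ℝ × ℝ} (h : a 0 ≠ o) : LeaveInOrder o a := by
  obtain ⟨θ, hθ⟩ := exists_polar (a 0 - o) (sub_ne_zero.2 h)
  refine ⟨fun _ => θ, ?_, ?_, ?_⟩
  · intro i j hij
    exact absurd hij (by simp [Subsingleton.elim i j])
  · intro _ _
    have := Real.pi_pos
    linarith
  · intro i
    rw [Subsingleton.elim i 0]
    exact polar_point hθ

theorem leave_two {o : ℝ × ℝ} {a : Fin 2 → ℝ × ℝ} (h : cr (a 0 - o) (a 1 - o) ≠ 0) :
    LeaveInOrder o a := by
  have hpi := Real.pi_pos
  have key : ∀ θ₀ θ₁ : ℝ, θ₀ < θ₁ → θ₁ < θ₀ + 2 * Real.pi → PolarAt (a 0 - o) θ₀ →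
      PolarAt (a 1 - o) θ₁ → LeaveInOrder o a := by
    intro θ₀ θ₁ h01 h10 k0 k1
    refine ⟨![θ₀, θ₁], ?_, ?_, ?_⟩
    · rw [Fin.strictMono_iff_lt_succ]
      intro i
      fin_cases i
      exact h01
    · intro i j
      fin_cases i <;> fin_cases j <;> simp <;> linarith
    · intro i
      fin_cases i
      · exact polar_point k0
      · exact polar_point k1
  have hne : ∀ {A B : Pt}, 0 < cr A B → A ≠ 0 := by
    rintro A B h rfl
    unfold cr at h
    simp at h
  rcases lt_or_gt_of_ne h with h | h
  · have h' : 0 < cr (a 1 - o) (a 0 - o) := by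
      unfold cr at h ⊢
      linarith
    obtain ⟨θ, hθ⟩ := exists_polar _ (hne h')
    obtain ⟨α, h1, h2, h3⟩ := exists_polar_step hθ h'
    exact key (θ + α) (θ + 2 * Real.pi) (by linarith) (by linarith) h3 (polarAt_add.2 hθ)
  · obtain ⟨θ, hθ⟩ := exists_polar _ (hne h)
    obtain ⟨α, h1, h2, h3⟩ := exists_polar_step hθ h
    exact key θ (θ + α) (by linarith) (by linarith) hθ h3

/-! ### The doubling -/

section

variable {V : Type}

/-- the neighbours of a vertex of the doubled graph -/
def dl (l : V → List V) (x : V × Bool) : List (V × Bool) :=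
  (if (l x.1).length < 3 then [(x.1, !x.2)] else []) ++ (l x.1).map fun u => (u, x.2)

theorem mem_dl {l : V → List V} {x y : V × Bool} :
    y ∈ dl l x ↔ (y.2 = !x.2 ∧ y.1 = x.1 ∧ (l x.1).length < 3) ∨ (y.2 = x.2 ∧ y.1 ∈ l x.1) := by
  unfold dl
  obtain ⟨u, i⟩ := x
  obtain ⟨v, j⟩ := y
  rw [List.mem_append]
  by_cases h : (l u).length < 3
  · simp only [h, if_true, List.mem_singleton, Prod.mk.injEq, List.mem_map]
    constructor
    · rintro (⟨rfl, rfl⟩ | ⟨a, ha, rfl, rfl⟩)
      · exact Or.inl ⟨rfl, rfl, trivial⟩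
      · exact Or.inr ⟨rfl, ha⟩
    · rintro (⟨rfl, rfl, -⟩ | ⟨rfl, ha⟩)
      · exact Or.inl ⟨rfl, rfl⟩
      · exact Or.inr ⟨v, ha, rfl, rfl⟩
  · simp only [h, if_false, List.not_mem_nil, false_or, and_false, List.mem_map, Prod.mk.injEq]
    constructor
    · rintro ⟨a, ha, rfl, rfl⟩
      exact ⟨rfl, ha⟩
    · rintro ⟨rfl, ha⟩
      exact ⟨v, ha, rfl, rfl⟩

variable {G : SimpleGraph V}

/-- the doubled graph -/
def dG (l : V → List V) (hmem : ∀ v u, u ∈ l v ↔ G.Adj v u) : SimpleGraph (V × Bool) where
  Adj x y := y ∈ dl l x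
  symm := ⟨by
    intro x y h
    rw [mem_dl] at h ⊢
    rcases h with ⟨h1, h2, h3⟩ | ⟨h1, h2⟩
    · exact Or.inl ⟨by rw [h1, Bool.not_not], h2.symm, by rw [h2]; exact h3⟩
    · exact Or.inr ⟨h1.symm, (hmem _ _).2 ((hmem _ _).1 h2).symm⟩⟩
  loopless := ⟨by
    intro x h
    rw [mem_dl] at h
    rcases h with ⟨h1, -, -⟩ | ⟨-, h2⟩
    · cases hx : x.2 <;> simp [hx] at h1
    · exact ((hmem _ _).1 h2).ne rfl⟩

theorem nodup_dl {l : V → List V} (hnd : ∀ v, (l v).Nodup) (x : V × Bool) : (dl l x).Nodup := by
  unfold dl
  have h1 : ((l x.1).map fun u => (u, x.2)).Nodup :=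
    (hnd x.1).map fun a b h => (Prod.mk.inj h).1
  by_cases h : (l x.1).length < 3
  · simp only [h, if_true, List.singleton_append, List.nodup_cons]
    refine ⟨?_, h1⟩
    intro hm
    rw [List.mem_map] at hm
    obtain ⟨a, -, ha⟩ := hm
    have := (Prod.mk.inj ha).2
    cases hx : x.2 <;> simp [hx] at this
  · simpa only [h, if_false, List.nil_append] using h1

/-- the rotation system of the doubled graph -/
def dR (l : V → List V) (hmem : ∀ v u, u ∈ l v ↔ G.Adj v u) (hnd : ∀ v, (l v).Nodup) :
    RotationSystem (dG l hmem) where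
  order x := (dl l x : Cycle (V × Bool))
  nodup x := nodup_dl hnd x
  mem_iff _ _ := Iff.rfl

theorem map_rot {A B : Type} {f : A → B} (hf : Function.Injective f) {l m : List A}
    (h : l.map f ~r m.map f) : l ~r m := by
  obtain ⟨k, hk⟩ := h
  refine ⟨k, ?_⟩
  rw [← List.map_rotate] at hk
  exact List.map_injective_iff.2 hf hk

theorem tri {l : V → List V} {hmem : ∀ v u, u ∈ l v ↔ G.Adj v u} {x y z : V × Bool}
    (hxy : (dG l hmem).Adj x y) (hyz : (dG l hmem).Adj y z) (hxz : (dG l hmem).Adj x z) :
    x.2 = y.2 := by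
  have hc : ∀ {a b : V × Bool}, (dG l hmem).Adj a b → a.2 ≠ b.2 → a.1 = b.1 := by
    intro a b hab hne
    have hab' : b ∈ dl l a := hab
    rw [mem_dl] at hab'
    rcases hab' with ⟨-, h2, -⟩ | ⟨h1, -⟩
    · exact h2.symm
    · exact absurd h1.symm hne
  by_contra hne
  have h1 := hc hxy hne
  by_cases h : x.2 = z.2
  · have h2 : y.1 = z.1 := hc hyz (by rw [← h]; exact fun h' => hne h'.symm)
    exact hxz.ne (Prod.ext (h1.trans h2) h)
  · have h2 : x.1 = z.1 := hc hxz h
    have h3 : y.2 = z.2 := by
      cases hx : x.2 <;> cases hy : y.2 <;> cases hz : z.2 <;> simp_all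
    exact hyz.ne (Prod.ext (h1.symm.trans h2) h3)

theorem three_le {w : Fin 4 → V} (hw : ∀ i j, i ≠ j → G.Adj (w i) (w j)) {i : Fin 4} {l : List V}
    (hmem : ∀ u, u ∈ l ↔ G.Adj (w i) u) : 3 ≤ l.length := by
  have hinj : Function.Injective w := by
    intro a b hab
    by_contra hne
    exact (hw a b hne).ne hab
  have hnd : (List.ofFn fun j : Fin 3 => w (i.succAbove j)).Nodup := by
    rw [List.nodup_ofFn]
    exact hinj.comp Fin.succAbove_right_injective
  have hsub : (List.ofFn fun j : Fin 3 => w (i.succAbove j)) ⊆ l := by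
    intro u hu
    rw [List.mem_ofFn] at hu
    obtain ⟨j, rfl⟩ := hu
    exact (hmem _).2 (hw _ _ (Fin.succAbove_ne i j).symm)
  have := (hnd.subperm hsub).length_le
  simpa using this

theorem even_double (l : V → List V) (hmem : ∀ v u, u ∈ l v ↔ G.Adj v u)
    (hnd : ∀ v, (l v).Nodup) (π : RotationSystem G) (hl : ∀ v, (l v : Cycle V) = π.order v)
    (hE : EvenOnK4 π) : EvenOnK4 (dR l hmem hnd) := by
  intro w hw
  have hb : ∀ i, (w i).2 = (w 0).2 := by
    intro i
    by_cases hi : i = 0
    · rw [hi]
    · obtain ⟨k, hk0, hki⟩ : ∃ k : Fin 4, k ≠ 0 ∧ k ≠ i := by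
        revert i
        decide
      exact tri (hw i 0 hi) (hw 0 k hk0.symm) (hw i k hki.symm)
  set b := (w 0).2 with hbdef
  have hw' : ∀ i j, i ≠ j → G.Adj (w i).1 (w j).1 := by
    intro i j hij
    have h : w j ∈ dl l (w i) := hw i j hij
    rw [mem_dl] at h
    rcases h with ⟨h1, -, -⟩ | ⟨-, h2⟩
    · exfalso
      rw [hb i, hb j] at h1
      cases hx : b <;> simp [hx] at h1
    · exact (hmem _ _).1 h2
  have hEw := hE (fun i => (w i).1) hw'
  have hset : {i : Fin 4 | (dR l hmem hnd).order (w i) =
      (List.ofFn fun j : Fin 3 => w (i.succAbove j) : Cycle (V × Bool))} =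
      {i : Fin 4 | π.order (w i).1 =
        (List.ofFn fun j : Fin 3 => (w (i.succAbove j)).1 : Cycle V)} := by
    ext i
    simp only [Set.mem_ofPred_eq]
    have h3 : ¬ (l (w i).1).length < 3 := by
      have := three_le (w := fun i => (w i).1) hw' (i := i) (l := l (w i).1)
        (fun u => hmem _ _)
      omega
    have e1 : (dR l hmem hnd).order (w i) =
        (((l (w i).1).map fun u => (u, b) : List (V × Bool)) : Cycle (V × Bool)) := by
      change (dl l (w i) : Cycle (V × Bool)) = _
      unfold dl
      rw [if_neg h3, List.nil_append, hb i]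
    have e2 : (List.ofFn fun j : Fin 3 => w (i.succAbove j)) =
        (List.ofFn fun j : Fin 3 => (w (i.succAbove j)).1).map fun u => (u, b) := by
      rw [List.map_ofFn]
      congr 1
      funext j
      exact Prod.ext rfl (hb _)
    rw [e1, e2, ← hl, Cycle.coe_eq_coe, Cycle.coe_eq_coe]
    constructor
    · exact map_rot fun a c h => (Prod.mk.inj h).1
    · intro h
      exact h.map _
  rw [hset]
  exact hEw

end

/-- The drawing, in general position. -/
theorem place : ∀ (k : ℕ) (V : Type) [Finite V] (G : SimpleGraph V) (π : RotationSystem G),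
    (∀ v, (G.neighborSet v).ncard ≤ 3 ∧ 3 ≤ (G.neighborSet v).ncard + k) → EvenOnK4 π →
    ∃ p : V → ℝ × ℝ, Function.Injective p ∧
      (∀ u v w, u ≠ v → v ≠ w → u ≠ w → cr (p v - p u) (p w - p u) ≠ 0) ∧
      ∀ v a b c, π.order v = (([a, b, c] : List V) : Cycle V) →
        Ccw (p a - p v) (p b - p v) (p c - p v) := by
  intro k
  induction k with
  | zero =>
    intro V _ G π hdeg hE
    have := Fintype.ofFinite V
    have hG : Cubic G := fun v => by
      have := hdeg v
      omega
    obtain ⟨r, h, hadj⟩ := exists_rot π hG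
    rw [← evenKFour_iff h hadj] at hE
    obtain ⟨p, hgood, hinj, hgen⟩ := coreTheorem V r hE
    refine ⟨p, hinj, hgen, ?_⟩
    intro v a b c hv
    have hc : r.Cyc v a b c := (cyc_iff h).2 hv
    exact (good_iff hc).1 (hgood v)
  | succ k ih =>
    intro V _ G π hdeg hE
    choose l hl using fun v => cycle_list (π.order v)
    have hmem : ∀ v u, u ∈ l v ↔ G.Adj v u := by
      intro v u
      rw [← π.mem_iff, ← hl]
      simp
    have hnd : ∀ v, (l v).Nodup := by
      intro v
      have := π.nodup v
      rw [← hl] at this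
      exact this
    have hlen : ∀ v, (G.neighborSet v).ncard = (l v).length := fun v => ncard_eq π (hl v)
    have hdeg' : ∀ x, ((dG l hmem).neighborSet x).ncard ≤ 3 ∧
        3 ≤ ((dG l hmem).neighborSet x).ncard + k := by
      intro x
      rw [ncard_eq (dR l hmem hnd) (v := x) (l := dl l x) rfl]
      have h1 := hdeg x.1
      rw [hlen] at h1
      unfold dl
      rw [List.length_append, List.length_map]
      split_ifs with h
      · simp only [List.length_singleton]
        omega
      · simp only [List.length_nil]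
        omega
    obtain ⟨p, hinj, hgen, hccw⟩ := ih (V × Bool) (dG l hmem) (dR l hmem hnd) hdeg'
      (even_double l hmem hnd π hl hE)
    have hne : ∀ {u v : V}, u ≠ v → ((u, false) : V × Bool) ≠ (v, false) := fun h h' =>
      h (Prod.mk.inj h').1
    refine ⟨fun v => p (v, false), fun u v h => (Prod.mk.inj (hinj h)).1,
      fun u v w h1 h2 h3 => hgen _ _ _ (hne h1) (hne h2) (hne h3), ?_⟩
    intro v a b c hv
    refine hccw (v, false) (a, false) (b, false) (c, false) ?_
    rw [← hl, Cycle.coe_eq_coe] at hv
    have h3 : (l v).length = 3 := by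
      have := hv.perm.length_eq
      simpa using this
    change (dl l (v, false) : Cycle (V × Bool)) = _
    unfold dl
    simp only
    rw [if_neg (by omega), List.nil_append, Cycle.coe_eq_coe]
    exact hv.map _

/-- a rotation system of a graph of maximum degree at most three satisfying the parity condition is
realized by a straight-line drawing without three collinear vertices -/
theorem realize {V : Type} [Finite V] {G : SimpleGraph V} (π : RotationSystem G)
    (hG : Subcubic G) (hE : EvenOnK4 π) : ∃ p : V → ℝ × ℝ, IsDrawing G p ∧ Realizes π p ∧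
      ∀ u v w, u ≠ v → v ≠ w → u ≠ w → cr (p v - p u) (p w - p u) ≠ 0 := by
  obtain ⟨p, hinj, hgen, hccw⟩ := place 3 V G π (fun v => ⟨hG v, by omega⟩) hE
  refine ⟨p, ⟨hinj, ?_⟩, ?_, hgen⟩
  · intro u v w huv hw
    have huv' : u ≠ v := huv.ne
    have hcr := cr_eq_zero_of_mem_openSegment hw
    by_cases h1 : w = u
    · subst h1
      have : p w = p v := by
        rwa [left_mem_openSegment_iff] at hw
      exact huv' (hinj this)
    · by_cases h2 : w = v
      · subst h2
        have : p u = p w := by
          rwa [right_mem_openSegment_iff] at hw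
        exact huv' (hinj this)
      · exact hgen u v w huv' (Ne.symm h2) (Ne.symm h1) hcr
  · intro v
    obtain ⟨l, hl⟩ := cycle_list (π.order v)
    refine ⟨l, hl, ?_⟩
    have hlen : l.length ≤ 3 := by
      rw [← ncard_eq π hl]
      exact hG v
    have hnd : l.Nodup := by
      have := π.nodup v
      rw [← hl] at this
      exact this
    have hmem : ∀ u, u ∈ l → u ≠ v := by
      intro u hu
      have : G.Adj v u := by
        rw [← π.mem_iff, ← hl]
        simpa using hu
      exact this.ne'
    match l, hl, hlen, hnd, hmem with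
    | [], _, _, _, _ => exact leave_zero _ _
    | [a], _, _, _, hmem =>
      exact leave_one (a := fun i => p ([a].get i)) fun h =>
        hmem a (by simp) (hinj h)
    | [a, b], _, _, hnd, hmem =>
      have hab : a ≠ b := by
        rintro rfl
        simp at hnd
      exact leave_two (a := fun i => p ([a, b].get i))
        (hgen v a b (hmem a (by simp)).symm hab (hmem b (by simp)).symm)
    | [a, b, c], hl, _, _, _ =>
      exact leave_iff.2 (hccw v a b c hl.symm)
    | _ :: _ :: _ :: _ :: _, _, hlen, _, _ =>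
      simp only [List.length_cons] at hlen
      omega

/-- the parity condition is necessary -/
theorem even_of_realizable {V : Type} {G : SimpleGraph V} (π : RotationSystem G)
    (hG : Subcubic G) (hreal : Realizable π) : EvenOnK4 π := by
  intro w hw
  obtain ⟨p, ⟨hpinj, hseg⟩, hR⟩ := hreal
  have hinj : Function.Injective w := by
    intro a b hab
    by_contra hne
    exact (hw a b hne).ne hab
  set g : V → Fin 4 := Function.invFun w with hg
  have hgw : ∀ i, g (w i) = i := Function.leftInverse_invFun hinj
  choose m hm hθ using fun i => hR (w i)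
  have hmem : ∀ i u, u ∈ m i ↔ G.Adj (w i) u := by
    intro i u
    rw [← π.mem_iff, ← hm]
    simp
  have hnd : ∀ i, (m i).Nodup := by
    intro i
    have := π.nodup (w i)
    rw [← hm] at this
    exact this
  have hlen : ∀ i, (m i).length = 3 := by
    intro i
    refine le_antisymm ?_ (three_le hw (hmem i))
    rw [← ncard_eq π (hm i)]
    exact hG _
  -- every neighbour of `w i` is some `w j`
  have hrange : ∀ i u, u ∈ m i → w (g u) = u := by
    intro i u hu
    have hnd' : (List.ofFn fun j : Fin 3 => w (i.succAbove j)).Nodup := by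
      rw [List.nodup_ofFn]
      exact hinj.comp Fin.succAbove_right_injective
    have hsub : (List.ofFn fun j : Fin 3 => w (i.succAbove j)) ⊆ m i := by
      intro u hu
      rw [List.mem_ofFn] at hu
      obtain ⟨j, rfl⟩ := hu
      exact (hmem _ _).2 (hw _ _ (Fin.succAbove_ne i j).symm)
    have hperm := (hnd'.subperm hsub).perm_of_length_le (by rw [hlen i]; simp)
    have hu' := hperm.mem_iff.2 hu
    rw [List.mem_ofFn] at hu'
    obtain ⟨j, rfl⟩ := hu'
    simp only [hgw]
  have hmap : ∀ i, ((m i).map g).map w = m i := by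
    intro i
    rw [List.map_map]
    conv_rhs => rw [← List.map_id (m i)]
    apply List.map_congr_left
    intro u hu
    exact hrange i u hu
  let ρ : RotationSystem (⊤ : SimpleGraph (Fin 4)) :=
    { order := fun i => ((m i).map g : Cycle (Fin 4))
      nodup := by
        intro i
        have h1 : (((m i).map g).map w).Nodup := by rw [hmap]; exact hnd i
        exact h1.of_map w
      mem_iff := by
        intro i j
        change j ∈ (m i).map g ↔ _
        rw [SimpleGraph.top_adj]
        constructor
        · intro h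
          rw [List.mem_map] at h
          obtain ⟨u, hu, rfl⟩ := h
          rintro h
          have h1 := hrange i u hu
          rw [← h] at h1
          exact ((hmem i u).1 hu).ne h1
        · intro h
          rw [List.mem_map]
          exact ⟨w j, (hmem i _).2 (hw i j h), hgw j⟩ }
  have hcub : Cubic (⊤ : SimpleGraph (Fin 4)) := by
    intro i
    rw [ncard_eq ρ (v := i) (l := (m i).map g) rfl, List.length_map, hlen]
  have hρ : Realizable ρ := by
    refine ⟨fun i => p (w i), ⟨hpinj.comp hinj, ?_⟩, ?_⟩
    · intro i j k hij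
      exact hseg _ _ _ (hw i j hij.ne)
    · intro i
      refine ⟨(m i).map g, rfl, ?_⟩
      obtain ⟨a, b, c, habc⟩ := List.length_eq_three.1 (hlen i)
      have h1 := hθ i
      have ha := hrange i a (by rw [habc]; simp)
      have hb := hrange i b (by rw [habc]; simp)
      have hc := hrange i c (by rw [habc]; simp)
      rw [habc] at h1 ⊢
      have h2 := leave_iff.1 h1
      refine leave_iff.2 ?_
      change Ccw (p (w (g a)) - _) (p (w (g b)) - _) (p (w (g c)) - _)
      rw [ha, hb, hc]
      exact h2
  have hev := (realizable_iff ρ hcub).1 hρ id (fun i j h => h)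
  have hset : {i : Fin 4 | π.order (w i) =
      (List.ofFn fun j : Fin 3 => w (i.succAbove j) : Cycle V)} =
      {i : Fin 4 | ρ.order (id i) =
        (List.ofFn fun j : Fin 3 => id (i.succAbove j) : Cycle (Fin 4))} := by
    ext i
    simp only [Set.mem_ofPred_eq, id]
    have e1 : (List.ofFn fun j : Fin 3 => w (i.succAbove j)) =
        (List.ofFn fun j : Fin 3 => i.succAbove j).map w := by
      rw [List.map_ofFn]
      rfl
    rw [← hm, e1]
    change _ ↔ ((m i).map g : Cycle (Fin 4)) = _
    rw [Cycle.coe_eq_coe, Cycle.coe_eq_coe]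
    constructor
    · intro h
      rw [← hmap i] at h
      exact map_rot hinj h
    · intro h
      have := h.map w
      rwa [hmap] at this
  rw [hset]
  exact hev

theorem characterization {V : Type} [Finite V] {G : SimpleGraph V} (π : RotationSystem G)
    (hG : Subcubic G) : Realizable π ↔ EvenOnK4 π := by
  refine ⟨even_of_realizable π hG, fun hE => ?_⟩
  obtain ⟨p, h1, h2, -⟩ := realize π hG hE
  exact ⟨p, h1, h2⟩

end Pool.Agent.KS6_65.SC3
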